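import Pool.Agent.R951.RS.Data

set_option autoImplicit false

open scoped Matrix

namespace Pool.Agent.R951.RS

/-- pairing of an integer row vector with a complex column vector -/
noncomputable def dotC : List ℤ → List ℂ → ℂ
  | [], _ => 0
  | _ :: _, [] => 0
  | a :: as, v :: vs => (a : ℂ) * v + dotC as vs

@[simp] lemma dotC_nil (V : List ℂ) : dotC [] V = 0 := by simp [dotC]
@[simp] lemma dotC_nil' (w : List ℤ) : dotC w [] = 0 := by cases w <;> simp [dotC]
@[simp] lemma dotC_cons (a : ℤ) (as : List ℤ) (v : ℂ) (vs : List ℂ) :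
    dotC (a :: as) (v :: vs) = (a : ℂ) * v + dotC as vs := rfl

lemma dotC_add (a b : List ℤ) (V : List ℂ) : dotC (add a b) V = dotC a V + dotC b V := by
  induction a generalizing b V with
  | nil => simp [add]
  | cons x xs ih =>
    cases b with
    | nil => simp [add]
    | cons y ys =>
      cases V with
      | nil => simp
      | cons v vs =>
        simp only [add, dotC_cons, ih]
        push_cast
        ring

lemma dotC_smul (c : ℤ) (a : List ℤ) (V : List ℂ) : dotC (smul c a) V = (c : ℂ) * dotC a V := by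
  induction a generalizing V with
  | nil => simp [smul]
  | cons x xs ih =>
    cases V with
    | nil => simp
    | cons v vs =>
      simp only [smul, dotC_cons, ih]
      push_cast
      ring

lemma dotC_vm (w : List ℤ) (rs : List (List ℤ)) (V : List ℂ) :
    dotC (vm w rs) V = dotC w (rs.map fun r => dotC r V) := by
  induction w generalizing rs with
  | nil => simp [vm]
  | cons x xs ih =>
    cases rs with
    | nil => simp [vm]
    | cons r rs => simp [vm, dotC_add, dotC_smul, ih]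

lemma dotC_map (w : List ℤ) (X : ℂ) (V : List ℂ) :
    dotC w (V.map fun v => X * v) = X * dotC w V := by
  induction w generalizing V with
  | nil => simp
  | cons x xs ih =>
    cases V with
    | nil => simp
    | cons v vs =>
      simp only [List.map_cons, dotC_cons, ih]
      ring

lemma l1_nonneg (w : List ℤ) : 0 ≤ l1 w := by
  induction w with
  | nil => simp [l1]
  | cons x xs ih => simp only [l1]; positivity

lemma dotC_bound (w : List ℤ) (V : List ℂ) (m : ℝ) (hm : 0 ≤ m) (hV : ∀ v ∈ V, ‖v‖ ≤ m) :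
    ‖dotC w V‖ ≤ (l1 w : ℝ) * m := by
  induction w generalizing V with
  | nil => simp [l1]
  | cons x xs ih =>
    cases V with
    | nil =>
      simp only [dotC_nil', norm_zero]
      have := l1_nonneg (x :: xs)
      have : (0 : ℝ) ≤ (l1 (x :: xs) : ℝ) := by exact_mod_cast this
      positivity
    | cons v vs =>
      simp only [dotC_cons, l1]
      push_cast
      have h1 : ‖(x : ℂ) * v‖ ≤ |(x : ℝ)| * m := by
        rw [norm_mul]
        have : ‖(x : ℂ)‖ = |(x : ℝ)| := by
          rw [← Complex.ofReal_intCast, Complex.norm_real, Real.norm_eq_abs]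
        rw [this]
        gcongr
        exact hV v (by simp)
      have h2 := ih vs (fun u hu => hV u (by simp [hu]))
      calc ‖(x : ℂ) * v + dotC xs vs‖ ≤ ‖(x : ℂ) * v‖ + ‖dotC xs vs‖ := norm_add_le _ _
        _ ≤ |(x : ℝ)| * m + (l1 xs : ℝ) * m := add_le_add h1 h2
        _ = (|(x : ℝ)| + (l1 xs : ℝ)) * m := by ring

lemma dotC_ofFn (n : ℕ) (w : List ℤ) (v : Fin n → ℂ) (hw : w.length = n) :
    dotC w (List.ofFn v) = ∑ j : Fin n, ((w.getD j 0 : ℤ) : ℂ) * v j := by
  induction n generalizing w with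
  | zero => simp
  | succ n ih =>
    cases w with
    | nil => simp at hw
    | cons x xs =>
      rw [List.ofFn_succ, dotC_cons, ih xs (fun j => v j.succ) (by simpa using hw),
        Fin.sum_univ_succ]
      simp

/-- entries -/
def aij (i j : Fin 20) : ℤ := (aa.getD i []).getD j 0
def nij (i j : Fin 20) : ℤ := (nn.getD i []).getD j 0

lemma a_nonneg : ∀ i j, 0 ≤ aij i j := by decide +kernel
lemma a_sum : ∀ i, ∑ j, aij i j = DD := by decide +kernel
lemma a_eq : ∀ i j, i ≠ j → aij i j = nij i j := by decide +kernel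
lemma e_zero : 80 * (aij 0 0 - nij 0 0) = 161 * DD := by decide +kernel
lemma e_nonneg : ∀ i, 0 ≤ 80 * (aij i i - nij i i) + 79 * DD := by decide +kernel
lemma n_len : ∀ i : Fin 20, (nn.getD i []).length = 20 := by decide +kernel
lemma n_eq : nn = List.ofFn (fun i : Fin 20 => nn.getD i []) := by decide +kernel
lemma unit_len : ∀ i : Fin 20, (unit i).length = 20 := by decide +kernel
lemma unit_get : ∀ i j : Fin 20, (unit i).getD j 0 = if j = i then 1 else 0 := by decide +kernel

lemma num_ineq : (25 * 80 ^ 18 * BB : ℤ) < 4 * DD ^ 20 := by decide +kernel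

lemma low_bd {D a b c : ℝ} (hD : 0 < D) (h1 : D * (2 / 5) ≤ a) (h2 : D * (2 / 5) ≤ b)
    (h3 : D / 80 ≤ c) : D * (2 / 5) * (D * (2 / 5) * (D / 80) ^ 18) ≤ a * (b * c ^ 18) := by
  have hb : 0 ≤ b := le_trans (by positivity) h2
  have ha : 0 ≤ a := le_trans (by positivity) h1
  gcongr

lemma DD_pos : (0 : ℝ) < DD := by norm_num [DD]

/-- the row-stochastic matrix -/
noncomputable def A : Matrix (Fin 20) (Fin 20) ℝ := fun i j => (aij i j : ℝ) / DD

/-- the diagonal -/
noncomputable def E (i : Fin 20) : ℝ := ((aij i i - nij i i : ℤ) : ℝ) / DD + 79 / 80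

lemma M_eq (i j : Fin 20) : (A - Matrix.diagonal E) i j =
    (nij i j : ℝ) / DD - (if i = j then 79 / 80 else 0) := by
  rw [Matrix.sub_apply, A]
  by_cases h : i = j
  · subst h
    rw [Matrix.diagonal_apply_eq, E]
    simp only [if_true]
    have := DD_pos.ne'
    push_cast
    field_simp
    ring
  · rw [Matrix.diagonal_apply_ne _ h, a_eq i j h, if_neg h]

lemma eig {μ : ℂ} {v : Fin 20 → ℂ}
    (h : ((A - Matrix.diagonal E).map Complex.ofReal) *ᵥ v = μ • v) (i : Fin 20) :
    ∑ j, (nij i j : ℂ) * v j = (DD : ℂ) * (μ + 79 / 80) * v i := by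
  have h1 := congrFun h i
  simp only [Matrix.mulVec, dotProduct, Matrix.map_apply, M_eq, Pi.smul_apply, smul_eq_mul] at h1
  have hD : (DD : ℂ) ≠ 0 := by exact_mod_cast DD_pos.ne'
  have h2 : ∑ j, (((nij i j : ℝ) / DD - (if i = j then 79 / 80 else 0) : ℝ) : ℂ) * v j =
      (∑ j, (nij i j : ℂ) * v j) / DD - 79 / 80 * v i := by
    rw [Finset.sum_div]
    have : ∀ j, (((nij i j : ℝ) / DD - (if i = j then 79 / 80 else 0) : ℝ) : ℂ) * v j =
        (nij i j : ℂ) * v j / DD - (if i = j then 79 / 80 * v j else 0) := by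
      intro j
      split_ifs
      · push_cast; ring
      · push_cast; ring
    simp only [this, Finset.sum_sub_distrib]
    simp
  rw [h2] at h1
  field_simp at h1 ⊢
  linear_combination h1

theorem main {μ : ℂ} {v : Fin 20 → ℂ} (hv : v ≠ 0)
    (h : ((A - Matrix.diagonal E).map Complex.ofReal) *ᵥ v = μ • v) : ‖μ‖ < 1 := by
  by_contra hμ
  rw [not_lt] at hμ
  set X : ℂ := (DD : ℂ) * (μ + 79 / 80) with hX
  set V : List ℂ := List.ofFn v with hV
  have hrow : (nn.map fun r => dotC r V) = V.map fun u => X * u := by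
    rw [n_eq, hV, List.map_ofFn, List.map_ofFn]
    congr 1
    funext i
    simp only [Function.comp]
    rw [dotC_ofFn 20 _ v (n_len i)]
    exact eig h i
  have hvm : ∀ w, dotC (vm w nn) V = X * dotC w V := by
    intro w
    rw [dotC_vm, hrow, dotC_map]
  have hit : ∀ k w, dotC (it k w) V = X ^ k * dotC w V := by
    intro k
    induction k with
    | zero => intro w; simp [it]
    | succ k ih => intro w; rw [it, ih, hvm]; ring
  have hsub : ∀ R w, dotC (sub1 R w) V = (X - R) * dotC w V := by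
    intro R w
    rw [sub1, dotC_add, hvm, dotC_smul]
    push_cast
    ring
  obtain ⟨i, -, hi⟩ := Finset.exists_max_image Finset.univ (fun i => ‖v i‖) ⟨0, Finset.mem_univ _⟩
  have hm : 0 < ‖v i‖ := by
    obtain ⟨j, hj⟩ := Function.ne_iff.1 hv
    have h1 : 0 < ‖v j‖ := norm_pos_iff.2 hj
    exact h1.trans_le (hi j (Finset.mem_univ _))
  have hfin : dotC (fin (unit i)) V = (X - R2) * ((X - R1) * (X ^ 18 * v i)) := by
    rw [fin, hsub, hsub, hit]
    congr 3
    rw [hV, dotC_ofFn 20 _ v (unit_len i)]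
    simp only [unit_get]
    simp
  have hb := dotC_bound (fin (unit i)) V ‖v i‖ hm.le (by
    intro u hu
    rw [hV, List.mem_ofFn] at hu
    obtain ⟨j, rfl⟩ := hu
    exact hi j (Finset.mem_univ _))
  have hc : l1 (fin (unit i)) ≤ BB := by
    have h1 := List.all_eq_true.1 check i (List.mem_range.2 i.2)
    simpa using h1
  rw [hfin, norm_mul, norm_mul, norm_mul, norm_pow] at hb
  have hb2 : ‖X - R2‖ * (‖X - R1‖ * ‖X‖ ^ 18) ≤ (BB : ℝ) := by
    have h1 : (l1 (fin (unit i)) : ℝ) ≤ BB := by exact_mod_cast hc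
    have h2 : ‖X - R2‖ * (‖X - R1‖ * ‖X‖ ^ 18) * ‖v i‖ ≤ (BB : ℝ) * ‖v i‖ := by
      calc ‖X - R2‖ * (‖X - R1‖ * ‖X‖ ^ 18) * ‖v i‖ =
          ‖X - R2‖ * (‖X - R1‖ * (‖X‖ ^ 18 * ‖v i‖)) := by ring
        _ ≤ _ := hb
        _ ≤ _ := by gcongr
    exact le_of_mul_le_mul_right h2 hm
  -- lower bounds
  have hDn : ‖(DD : ℂ)‖ = (DD : ℝ) := by
    rw [← Complex.ofReal_intCast, Complex.norm_real, Real.norm_of_nonneg DD_pos.le]
  have key : ∀ (t : ℝ), |t| ≤ 1 → (DD : ℝ) * (1 - |t|) ≤ ‖(DD : ℂ) * (μ - t)‖ := by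
    intro t ht
    rw [norm_mul, hDn]
    apply mul_le_mul_of_nonneg_left _ DD_pos.le
    have h1 := norm_sub_norm_le μ (t : ℂ)
    rw [Complex.norm_real, Real.norm_eq_abs] at h1
    linarith
  have hX0 : (DD : ℝ) / 80 ≤ ‖X‖ := by
    have h1 := key (-(79 / 80)) (by rw [abs_neg, abs_of_pos] <;> norm_num)
    have e : (DD : ℂ) * (μ - ((-(79 / 80) : ℝ) : ℂ)) = X := by rw [hX]; push_cast; ring
    rw [e, abs_neg, abs_of_pos (by norm_num)] at h1
    linarith
  have hXR : ∀ R : ℤ, |(R : ℝ) / DD - 79 / 80| ≤ 3 / 5 → (DD : ℝ) * (2 / 5) ≤ ‖X - R‖ := by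
    intro R hR
    have h1 := key ((R : ℝ) / DD - 79 / 80) (by linarith)
    have hD : (DD : ℂ) ≠ 0 := by exact_mod_cast DD_pos.ne'
    have e : (DD : ℂ) * (μ - (((R : ℝ) / DD - 79 / 80 : ℝ) : ℂ)) = X - R := by
      rw [hX]; push_cast; field_simp; ring
    rw [e] at h1
    refine le_trans ?_ h1
    apply mul_le_mul_of_nonneg_left _ DD_pos.le
    linarith
  have hR1 : (DD : ℝ) * (2 / 5) ≤ ‖X - R1‖ := hXR R1 (by
    rw [abs_le]; constructor <;> norm_num [R1, DD])
  have hR2 : (DD : ℝ) * (2 / 5) ≤ ‖X - R2‖ := hXR R2 (by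
    rw [abs_le]; constructor <;> norm_num [R2, DD])
  have hlow : ((DD : ℝ) * (2 / 5)) * (((DD : ℝ) * (2 / 5)) * ((DD : ℝ) / 80) ^ 18) ≤
      ‖X - R2‖ * (‖X - R1‖ * ‖X‖ ^ 18) := low_bd DD_pos hR2 hR1 hX0
  have hcontra : (BB : ℝ) < ((DD : ℝ) * (2 / 5)) * (((DD : ℝ) * (2 / 5)) * ((DD : ℝ) / 80) ^ 18) := by
    have h1 : (25 * 80 ^ 18 * BB : ℤ) < 4 * DD ^ 20 := num_ineq
    have h2 : (25 * 80 ^ 18 * BB : ℝ) < 4 * (DD : ℝ) ^ 20 := by exact_mod_cast h1
    have h3 : ((DD : ℝ) * (2 / 5)) * (((DD : ℝ) * (2 / 5)) * ((DD : ℝ) / 80) ^ 18) =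
        4 * (DD : ℝ) ^ 20 / (25 * 80 ^ 18) := by
      generalize (DD : ℝ) = x
      ring
    rw [h3, lt_div_iff₀ (by positivity)]
    exact lt_of_eq_of_lt (mul_comm _ _) h2
  exact absurd (hlow.trans hb2) (not_le.2 hcontra)

end Pool.Agent.R951.RS
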